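import Pool.Agent.X40.BA.E6

/-!
# MP_8d3206_nt: the growth exponents `G(Θ)` for `Θ = (φ₄, φ₄²)`, sup norm and Euclidean norm

The definitions `err`, `IsBest`, `supN`, `eucN`, `bestSet`, `Mseq`, `G` are in
`Pool/Agent/X40/BA/G1.lean` to `G4.lean`.
-/

set_option autoImplicit false

namespace Pool.Agent.Results.MP_8d3206_nt.ExactGrowthExponents

open Pool.Agent.X40.BA

/-- For the real number `φ` with `φ³ = φ + 1` and `Θ = (φ, φ²)`: for the sup norm and for the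
Euclidean norm there are infinitely many best approximation vectors, the growth exponent `G(Θ)` is
the explicit number below, and it is different from `φ`. -/
theorem result (φ : ℝ) (hφ : φ ^ 3 = φ + 1) (lam : ℝ)
    (hlam : lam = (3 * φ ^ 2 + 2 * φ + 1 + Real.sqrt (2 * φ ^ 2 + 5 * φ + 4)) / (3 * φ + 1)) :
    ((bestSet supN (φ, φ ^ 2)).Infinite ∧
      G supN (φ, φ ^ 2) = ENNReal.ofReal
        (φ ^ (Real.pi / Real.arctan (φ ^ 3 * Real.sqrt (3 * φ ^ 2 - 4) / (φ ^ 4 - 2)))) ∧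
      G supN (φ, φ ^ 2) ≠ ENNReal.ofReal φ) ∧
    ((bestSet eucN (φ, φ ^ 2)).Infinite ∧
      G eucN (φ, φ ^ 2) = ENNReal.ofReal
        (φ ^ (Real.pi / Real.arctan (lam * Real.sqrt (3 * φ ^ 2 - 4) / (lam * φ - 2)))) ∧
      G eucN (φ, φ ^ 2) ≠ ENNReal.ofReal φ) := by
  have h : lam = Pool.Agent.X40.BA.lam φ := hlam
  subst h
  exact ⟨⟨bestSet_infinite hφ (adm_sup hφ), G_sup hφ, G_ne hφ (adm_sup hφ)⟩,
    ⟨bestSet_infinite hφ (adm_euc hφ), G_euc hφ, G_ne hφ (adm_euc hφ)⟩⟩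

end Pool.Agent.Results.MP_8d3206_nt.ExactGrowthExponents
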